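import Pool.Agent.Hx18.HC.Main

/-!
# Hartshorne's conjecture on Chow groups of hypersurfaces: reduction to the Abel-Jacobi maps

Setting: Chow groups `C` with rational coefficients of a class of smooth projective varieties over
an uncountable algebraically closed field, a Weil cohomology `H`, and the kernels `N` of the
Abel-Jacobi maps. Let `Q V q` imply that `(V, q)` is the primitive motive of a smooth hypersurface of
a fixed degree, or of the resolution of a hypersurface of this degree with one ordinary double
point; the theorem on Lefschetz pencils is part of the definition.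

Fix `i`. If, for `2 ≤ j ≤ i`, the Abel-Jacobi map is injective on `CH^j` of these motives in the
single dimension `2 j - 1`, then `CH^i(V) = ℚ h^i` for all the hypersurfaces `V` of dimension
`> 2 i`, and the homologically trivial cycles of codimension `i` are zero if `dim V = 2 i`.

So Hartshorne's conjecture for cycles of codimension two, in all the dimensions `≥ 5`, follows from
the injectivity of the Abel-Jacobi maps on the one-cycles of threefolds.
-/

set_option autoImplicit false

open CategoryTheory AlgebraicGeometry

universe u v w

namespace Pool.Agent.Results.MP_4be043_ag.AbelJacobiDescent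

open Pool.Agent.H914 Pool.Agent.H914.VarClass Pool.Agent.W492.BB Pool.Agent.TH133
  Pool.Agent.Hx18.BB Pool.Agent.Hx18.HC

variable {k : Type u} [Field k] {𝒱 : VarClass k}

/-- **Main theorem.** -/
theorem result (C : TheoryData.{u, v, 0} 𝒱 ℚ) [IsChowProj C] {K : Type w} [Field K]
    (H : WeilTheoryData.{u, v, w} C K) [IsWeilProj H] (N : Family C) (hN : IsAJKernel H N)
    (Q : ∀ V : 𝒱.Obj, C.A (V.prod V) → Prop)
    (hQ : ∀ V q, Q V q → IsPrimitiveMotive H Q V q) (i : ℕ)
    (hAJ : ∀ j : ℕ, 2 ≤ j → j ≤ i → AJInjectiveIn Q N j)
    (V : 𝒱.Obj) (q : C.A (V.prod V)) (h : C.A V) (hV : Q V q) (hh : IsPrimitivePart h q) :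
    (2 * i < V.dim → IsGeneratedByPower h i) ∧ (2 * i = V.dim → HomInjective H V i) :=
  (main C H N hN Q hQ i).2 hAJ V q h hV hh

end Pool.Agent.Results.MP_4be043_ag.AbelJacobiDescent
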