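import Pool.Agent.Helper13HC.Step

/-!
# The conjecture of Hartshorne: hypersurfaces of large dimension suffice

Let `k` be an algebraically closed field of characteristic zero, for instance `ℂ`.

*Theorem.* Let `d ≥ 2`. If the conjecture of Hartshorne is true for all smooth hypersurfaces of
degree `d` and dimension `≥ m`, for some `m`, then it is true for all smooth hypersurfaces of degree `d`.

Hence the conjecture is equivalent to its restriction to the hypersurfaces with `n ≥ f(d)`, where `f` is
any function. For `f(d) = d` these hypersurfaces are Fano, and if `f` grows fast enough then they are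
unirational and contain linear subspaces of any prescribed dimension (Harris, Mazur, Pandharipande).

The proof. Let `X : F = 0` be a smooth hypersurface of degree `d` and dimension `n`. The group
`A^i(X) / ℚ h^i`, `1 ≤ i ≤ n`, is the Chow group `CH_{n+1-i}` of the affine cone `F = 0` in `𝔸^{n+2}`. Let
`W` be the smooth hypersurface `F(x) + u^d + u y^{d-1} = 0` of degree `d` and dimension `n + 2`. Its cone is
a finite free covering of the affine variety `M : F(x) = u t` in `𝔸^{n+4}`, by
`t = -(y^{d-1} + u^{d-1})`, so `CH_{n+2-i}(M) ⊆ CH_{n+2-i}(cone of W)`. The open subset `u ≠ 0` of `M` is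
`𝔸^{n+2} × 𝔾_m` and its complement is the product of the cone of `X` with a line; since
`CH_{n+2-i}(𝔸^{n+2} × 𝔾_m, 1) = 0` the localisation sequence gives an injection
`CH_{n+1-i}(cone of X) → CH_{n+2-i}(M)` (Knörrer periodicity). So `A^{i+1}(W) = ℚ h^{i+1}` implies
`A^i(X) = ℚ h^i`, and `i < n / 2` if and only if `i + 1 < (n + 2) / 2`.

The known properties of (higher) Chow groups are collected in `IsChow`; the geometry (smoothness of
`W`, the covering, the open subset and its complement) is proved with the coordinate rings.
-/

set_option autoImplicit false

namespace Pool.Agent.Results.MP_4be043_ag.LargeDimension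

open Pool.Agent.Helper13HC

theorem result {k : Type} [Field k] [IsAlgClosed k] [CharZero k] (T : ChowData k) (hT : IsChow T)
    {d : ℕ} (hd : 2 ≤ d) (m : ℕ) (h : ∀ n, m ≤ n → Hartshorne T n d) : ∀ n, Hartshorne T n d :=
  fun _ => hT.hartshorne_add hd m (h _ (by omega))

end Pool.Agent.Results.MP_4be043_ag.LargeDimension
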