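import Pool.Agent.Helper17.LD.Join

/-!
# The conjecture of Hartshorne: hypersurfaces that are nearly Fermat hypersurfaces suffice

Let `k` be an algebraically closed field of characteristic zero, for instance `ℂ`. A form
`F(z_0, …, z_{n+1})` of degree `d` is *nondegenerate* if its restrictions to all coordinate subspaces are
smooth: for every point `z ≠ 0` there is a coordinate `z_a ≠ 0` with `∂F/∂z_a (z) ≠ 0`
(`IsNondegenerate`). Choose for each nondegenerate form `F` and each codimension `i < n / 2` numbers
`m = m(F, i) ≥ 1` and `r = r(F, i) ≥ 0`, in an arbitrary way, for example both extremely large. Consider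
the smooth hypersurface

`Y : F(z_0^m, …, z_{n+1}^m) + a_1^{dm} + a_2^{dm} + ⋯ + a_{2r}^{dm} = 0`

of degree `d m` and dimension `n + 2 r`.

*Theorem.* The conjecture of Hartshorne holds for all smooth hypersurfaces of degree at least two
(degree one is trivial) if and only if `A^{i+r}(Y) = ℚ h^{i+r}` for all these hypersurfaces `Y`
(`i + r < dim Y / 2`).

So only hypersurfaces have to be considered whose equation is a Fermat equation in all but `n + 2`
variables and which have the large group of automorphisms `μ_m^{n+2} × μ_{dm}^{2r}`; the degree may be
divisible by any given number, and the dimension may be arbitrarily large compared with the degree,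
and the degree compared with `n` and `d`.

The proof. In general linear coordinates a smooth form is nondegenerate (`exists_coord`): one after
the other we choose hyperplanes whose intersections with the given coordinate subspaces are smooth.
They exist since the partial derivatives of `F` satisfy an algebraic relation modulo `F`
(`exists_dual`, the equation of the dual variety). The group `A^i(X) / ℚ h^i`, `1 ≤ i ≤ n`, of the
hypersurface `X : F = 0` is the Chow group `CH_{n+1-i}` of its affine cone. The cone of
`F(z_0^m, …, z_{n+1}^m) = 0` is obtained from the cone of `X` by adjoining `m`-th roots of the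
coordinates, one after the other (`coverIso`), and the pull-back to a finite free covering is injective.
Finally, `a^D + b^D` is the product of `u = a - ω b` (`ω^D = -1`) and of a polynomial which is monic in
`b` over `k[u]`, up to a constant, so the cone of `G(z) + a^D + b^D = 0` is a finite free covering
of the affine variety `G(z) = u t` (`hEquiv`), whose Chow group `CH_{s+1}` contains `CH_s` of the cone of
`G = 0` (Knörrer periodicity, from the file `LargeDimension`).

The known properties of (higher) Chow groups are collected in `IsChow`; all the geometry is proved
with polynomials and coordinate rings.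
-/

set_option autoImplicit false

namespace Pool.Agent.Results.MP_4be043_ag.NearlyFermat

open Pool.Agent.Helper13HC Pool.Agent.Helper17.LD

theorem result {k : Type} [Field k] [IsAlgClosed k] [CharZero k] (T : ChowData k) (hT : IsChow T)
    -- the numbers `m(F, i) ≥ 1` and `r(F, i)`
    (m r : ∀ n : ℕ, MvPolynomial (Fin (n + 2)) k → ℕ → ℕ) (hm : ∀ n F i, 0 < m n F i) :
    (∀ n d, 2 ≤ d → Hartshorne T n d) ↔
      ∀ n d, 2 ≤ d → ∀ F : MvPolynomial (Fin (n + 2)) k, IsNondegenerate F d →
        ∀ i, 1 ≤ i → 2 * i < n →
          GeneratedByPower T (joinFermat (powForm (m n F i) F) (m n F i * d) (r n F i))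
            (i + r n F i) := by
  constructor
  · intro h n d hd F hF i h1 h2
    have hD : 2 ≤ m n F i * d := by
      have := Nat.mul_le_mul (hm n F i) hd
      omega
    exact h (n + 2 * r n F i) (m n F i * d) hD _
      (join_smooth hD (powForm_smooth (hm n F i) hF) _) _ (by omega) (by omega)
  · intro h n d hd F hF i h1 h2
    refine generated_of_power hT hd hF h1 (by omega) fun G hG => ⟨m n G i, hm n G i, ?_⟩
    have hD : 2 ≤ m n G i * d := by
      have := Nat.mul_le_mul (hm n G i) hd
      omega
    exact join_step hT hD (powForm_smooth (hm n G i) hG) h1 (by omega) _ (h n d hd G hG i h1 h2)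

end Pool.Agent.Results.MP_4be043_ag.NearlyFermat
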